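import Pool.Agent.Q120.PD.Asm
import Pool.Agent.Q190.PD.CHO
import Pool.Agent.Q190.PD.Base

/-!
# Prime pairs with an error term: the critical sieving level

`z : ℕ → ℕ` gives the level: on the block `2 ^ k ≤ n < 2 ^ (k + 1)` the random set contains each `n` without prime
factors `p < z k` independently with probability `1 / (V log n)` (at most `1`), `V = ∏_{p < z k} (1 - 1/p)`, and no other `n`.
`log k` is `log log x` up to a constant, for `x` in the block. The number of the pairs with difference `d` is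
`(1 + o((log log x) ^ (-a))) 𝔖(d) x / log ^ 2 x` uniformly in all even `d ≤ (log x) ^ B` if and only if
`z_k log z_k / (log k) ^ (1 + a) → ∞`. The question is `a = B = 2`.

Deterministic lemmas by helper190.
-/

set_option autoImplicit false

namespace Pool.Agent.Results.MP_678834_nt.CriticalLevelForPairs

open Finset MeasureTheory Filter Pool.Agent.Q120.MG Pool.Agent.Q120.GM Pool.Agent.Q120.CL Pool.Agent.Q120.HL Pool.Agent.Q120.PD
open scoped Topology

/-- The question for the set `S` in place of the primes. -/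
def Q1 (S : Set ℕ) : Prop :=
  ∀ ε : ℝ, 0 < ε → ∃ X : ℝ, ∀ x : ℝ, X ≤ x → ∀ d : ℕ, Even d → 2 ≤ d → (d : ℝ) ≤ Real.log x ^ 2 →
    |(pairs S d ⌊x⌋₊ : ℝ) - MT d * x / Real.log x ^ 2| ≤ ε / Real.log (Real.log x) ^ 2 * (MT d * x / Real.log x ^ 2)

theorem Q1_iff (S : Set ℕ) : Q1 S ↔ PLaw S 2 2 := by
  unfold Q1 PLaw
  simp only [Real.rpow_two]

theorem cube (z : ℕ → ℕ) : (fun k : ℕ => (z k : ℝ) * Real.log (z k) / Real.log k ^ 3) =
    fun k : ℕ => (z k : ℝ) * Real.log (z k) / Real.log k ^ ((1 : ℝ) + 2) := by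
  funext k
  rw [show (1 : ℝ) + 2 = ((3 : ℕ) : ℝ) by norm_num, Real.rpow_natCast]

/-- **The critical sieving level.** -/
theorem result (z : ℕ → ℕ) (hz : ∀ᶠ k : ℕ in atTop, 8 * z k ≤ k) :
    (∃ (Ω : Type) (_ : MeasurableSpace Ω) (μ : Measure Ω) (A : Ω → Set ℕ), IsProbabilityMeasure μ ∧ IsModel μ (pr z) A) ∧
    ∀ (Ω : Type) (_ : MeasurableSpace Ω) (μ : Measure Ω) (_ : IsProbabilityMeasure μ) (A : Ω → Set ℕ), IsModel μ (pr z) A →
      (Tendsto (fun k : ℕ => (z k : ℝ) * Real.log (z k) / Real.log k ^ 3) atTop atTop → ∀ᵐ ω ∂μ, Q1 (A ω)) ∧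
      (¬ Tendsto (fun k : ℕ => (z k : ℝ) * Real.log (z k) / Real.log k ^ 3) atTop atTop → ∀ᵐ ω ∂μ, ¬ Q1 (A ω)) ∧
      ∀ a : ℝ, 0 < a →
        (Tendsto (fun k : ℕ => (z k : ℝ) * Real.log (z k) / Real.log k ^ (1 + a)) atTop atTop →
          ∀ᵐ ω ∂μ, ∀ B : ℝ, PLaw (A ω) a B) ∧
        (¬ Tendsto (fun k : ℕ => (z k : ℝ) * Real.log (z k) / Real.log k ^ (1 + a)) atTop atTop →
          ∀ B : ℝ, 0 < B → ∀ᵐ ω ∂μ, ¬ PLaw (A ω) a B) := by
  have hS : J_SID := Pool.Agent.Q190.PD.t_SID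
  have hR : J_RAT := Pool.Agent.Q190.PD.t_RAT
  have hC : J_CHO := Pool.Agent.Q190.PD.t_CHO
  refine ⟨⟨_, inferInstance, prodMeasure (pr z), trueSet, inferInstance, isModel (pr z) (pr_nonneg z) (pr_le_one z)⟩,
    fun Ω _ μ _ A hA => ⟨fun h => ?_, fun h => ?_, fun a ha => ⟨fun h => pos_all hS hR hA hz ha h, fun h B hB => neg_all hS hC hA hz ha hB h⟩⟩⟩
  · rw [cube] at h
    filter_upwards [pos_all hS hR hA hz two_pos h] with ω hω
    exact (Q1_iff _).2 (hω 2)
  · rw [cube] at h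
    filter_upwards [neg_all hS hC hA hz two_pos two_pos h] with ω hω hQ
    exact hω ((Q1_iff _).1 hQ)

end Pool.Agent.Results.MP_678834_nt.CriticalLevelForPairs
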