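import Pool.Agent.Q117.LF.Row5

/-!
MP_678834_nt (uniform Hardy-Littlewood asymptotic for prime pairs): uniformly in ALL even differences `d ≤ X`, every admissible constellation in the right order of
magnitude, with a prime and a product of two primes at any two places, and with no other almost prime pair `m, m + d` at the average distance of such pairs.
-/

set_option autoImplicit false

namespace Pool.Agent.Results.MP_678834_nt.IsolatedPairsAllDifferences

/-- all prime factors of `m` are `> z` (so `0` is not rough) -/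
def Rough (z : ℝ) (m : ℤ) : Prop := ∀ p : ℕ, p.Prime → (p : ℤ) ∣ m → z < p

/-- at most two prime factors (with multiplicity), all `> z` -/
def AtMostTwo (z : ℝ) (m : ℤ) : Prop := m.natAbs.primeFactorsList.length ≤ 2 ∧ Rough z m

/-- `E` misses a residue class modulo every prime -/
def Admissible (E : Finset ℤ) : Prop := ∀ p : ℕ, p.Prime → ∃ r : ℤ, ∀ e ∈ E, ¬ (p : ℤ) ∣ r + e

open Classical in
/-- the product of `(1 - ω(p) / p) / (1 - 1 / p) ^ |E|` over the primes `p ≤ y`, where `ω(p)` is the number of the residue classes modulo `p` that contain an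
element of `E`: the singular series of `E` truncated at `y` -/
noncomputable def sing (y : ℕ) (E : Finset ℤ) : ℝ :=
  ∏ p ∈ (Finset.Icc 1 y).filter Nat.Prime, ((1 - ((E.image (fun e : ℤ => e % (p : ℤ))).card : ℝ) / p) / (1 - 1 / (p : ℝ)) ^ E.card)

/-- the density of the `m` such that `m (m + d)` has no prime factor `≤ X`: the product of `1 - 1/p` over the primes `p ≤ X` dividing `d` and of `1 - 2/p` over the
other primes `p ≤ X` -/
noncomputable def dens (X : ℝ) (d : ℕ) : ℝ := ∏ p ∈ (Finset.Icc 1 ⌊X⌋₊).filter Nat.Prime, (1 - (if p ∣ d then 1 else 2 : ℝ) / p)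

/-- the `n ∈ (X, 2X]` with `n + e₁` prime, `n + e₂` with at most two prime factors, all `> X ^ (1/9)`, all the `n + e`, `e ∈ E`, without prime factors
`≤ X ^ (1/t)`, and such that every almost prime pair `m, m + d` with `|m - n| ≤ ν / dens X d` (and `|m - n| ≤ X`) is contained in `n + E` -/
def Good (t : ℕ) (ν X : ℝ) (d : ℕ) (E : Finset ℤ) (e₁ e₂ : ℤ) : Set ℕ :=
  {n : ℕ | X < n ∧ (n : ℝ) ≤ 2 * X ∧ ((n : ℤ) + e₁).toNat.Prime ∧ AtMostTwo (X ^ (1 / 9 : ℝ)) ((n : ℤ) + e₂) ∧
    (∀ e ∈ E, Rough (X ^ (1 / (t : ℝ))) ((n : ℤ) + e)) ∧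
    ∀ m : ℤ, |((m - n : ℤ) : ℝ)| ≤ ν / dens X d → |((m - n : ℤ) : ℝ)| ≤ X → Rough (X ^ (1 / (t : ℝ))) m → Rough (X ^ (1 / (t : ℝ))) (m + d) →
      m - n ∈ E ∧ m - n + d ∈ E}

open Pool.Agent.Q117.LF in
theorem oF_pair (d p : ℕ) (hp : p.Prime) : oF {0, (d : ℤ)} p = if p ∣ d then 1 else 2 := by
  unfold oF
  rw [Finset.image_insert, Finset.image_singleton]
  split_ifs with h
  · have : (0 : ℤ) % p = (d : ℤ) % p := by
      rw [Int.zero_emod]
      exact (Int.emod_eq_zero_of_dvd (by exact_mod_cast h)).symm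
    rw [this, Finset.pair_eq_singleton, Finset.card_singleton]
  · rw [Finset.card_pair]
    rw [Int.zero_emod]
    intro h0
    apply h
    exact_mod_cast Int.dvd_of_emod_eq_zero h0.symm

open Pool.Agent.Q117.LF in
theorem VF_pair (X : ℝ) (d : ℕ) : VF ⌊X⌋₊ {0, (d : ℤ)} = dens X d := by
  unfold VF dens
  apply Finset.prod_congr rfl
  intro p hp
  rw [oF_pair d p (Finset.mem_filter.1 hp).2]
  push_cast
  rfl

theorem dens_pos (X : ℝ) {d : ℕ} (hd : Even d) : 0 < dens X d := by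
  unfold dens
  apply Finset.prod_pos
  intro p hp
  have hpp := (Finset.mem_filter.1 hp).2
  have hp0 : (0 : ℝ) < p := by exact_mod_cast hpp.pos
  rw [sub_pos, div_lt_one hp0]
  split_ifs with h
  · exact_mod_cast hpp.one_lt
  · have h2 : p ≠ 2 := by
      rintro rfl
      exact h hd.two_dvd
    have := hpp.two_le
    have h3 : 2 < p := by omega
    exact_mod_cast h3

theorem adm_pair {d : ℕ} (hd : Even d) : Pool.Agent.Q117.LF.AdmZ {0, (d : ℤ)} := by
  intro p hp
  have key : ∀ r : ℤ, ¬ (p : ℤ) ∣ r → ¬ (p : ℤ) ∣ r + d → ∀ e ∈ ({0, (d : ℤ)} : Finset ℤ), ¬ (p : ℤ) ∣ r + e := by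
    intro r h0 h1 e he
    simp only [Finset.mem_insert, Finset.mem_singleton] at he
    rcases he with rfl | rfl
    · rwa [add_zero]
    · exact h1
  have h1 : ¬ (p : ℤ) ∣ 1 := by
    intro h
    have : p ∣ 1 := by exact_mod_cast h
    exact hp.one_lt.ne' (Nat.dvd_one.mp this)
  by_cases h : (p : ℤ) ∣ 1 + d
  · -- `p` is odd, `r = 2`
    have hp2 : p ≠ 2 := by
      rintro rfl
      obtain ⟨k, hk⟩ := hd
      rw [hk] at h
      push_cast at h
      omega
    refine ⟨2, key 2 ?_ ?_⟩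
    · intro h2
      have : p ∣ 2 := by exact_mod_cast h2
      exact hp2 ((Nat.prime_dvd_prime_iff_eq hp Nat.prime_two).1 this)
    · intro h2
      apply h1
      have := dvd_sub h2 h
      have e : (2 : ℤ) + d - (1 + d) = 1 := by ring
      rwa [e] at this
  · exact ⟨1, key 1 h1 h⟩

theorem result : ∀ k : ℕ, ∃ t : ℕ, 1 ≤ t ∧ ∃ c : ℝ, 0 < c ∧ ∃ ν : ℝ, 0 < ν ∧ ∃ X0 : ℝ, ∀ X : ℝ, X0 ≤ X → ∀ d : ℕ, 1 ≤ d → (d : ℝ) ≤ X → Even d →
    ∀ E : Finset ℤ, E.card ≤ k → (∀ e ∈ E, 0 ≤ e ∧ (e : ℝ) ≤ X) → Admissible E → ∀ e₁ ∈ E, ∀ e₂ ∈ E, e₁ ≠ e₂ → ∀ y : ℕ, X ≤ y →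
      c * (X / Real.log X ^ E.card * sing y E) ≤ ((Good t ν X d E e₁ e₂).ncard : ℝ) := by
  classical
  intro k
  obtain ⟨t, ht, h⟩ := Pool.Agent.Q117.LF.fscC (max k 2) 1 1 le_rfl
  obtain ⟨c, hc, ν, hν, X0, h⟩ := h t le_rfl
  obtain ⟨c', hc', X1, h'⟩ := Pool.Agent.Q117.LF.ssfC k
  refine ⟨t, ht, c * c', by positivity, ν, hν, max X0 (max X1 1), fun X hX d hd1 hdX hd E hk hE ha e₁ m₁ e₂ m₂ hne y hy => ?_⟩
  have hX0 : X0 ≤ X := (le_max_left _ _).trans hX
  have hX1 : X1 ≤ X := (le_max_left _ _).trans ((le_max_right _ _).trans hX)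
  have hX2 : (1 : ℝ) ≤ X := (le_max_right _ _).trans ((le_max_right _ _).trans hX)
  have habs : ∀ e ∈ E, |(e : ℝ)| ≤ X := fun e he => by
    rw [abs_of_nonneg (by exact_mod_cast (hE e he).1)]
    exact (hE e he).2
  have hdp := dens_pos X hd
  have h1 := h' X hX1 E hk habs ha y hy
  have hL0 : 0 ≤ min (ν / dens X d) X := le_min (by positivity) (by linarith)
  have h2 := h X hX0 E (hk.trans (le_max_left _ _)) (fun e he => by rw [Nat.cast_one, one_mul]; exact habs e he) ha e₁ m₁ e₂ m₂ hne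
    (by
      rw [Nat.cast_one, div_one]
      have : (0 : ℝ) ≤ (e₁ : ℝ) := by exact_mod_cast (hE e₁ m₁).1
      linarith) (fun _ => {0, (d : ℤ)})
    (fun _ => ⟨⟨0, by simp⟩, (Finset.card_le_two).trans (le_max_right _ _), fun f hf => by
      simp only [Finset.mem_insert, Finset.mem_singleton] at hf
      rw [Nat.cast_one, one_mul]
      rcases hf with rfl | rfl
      · simp; linarith
      · rw [Int.cast_natCast, abs_of_nonneg (Nat.cast_nonneg _)]; exact hdX, adm_pair hd⟩)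
    (min (ν / dens X d) X) hL0 (min_le_right _ _) (fun _ => by
      rw [VF_pair]
      calc min (ν / dens X d) X * dens X d ≤ ν / dens X d * dens X d := by
            apply mul_le_mul_of_nonneg_right (min_le_left _ _) hdp.le
        _ = ν := div_mul_cancel₀ _ hdp.ne')
    (X ^ (1 / (t : ℝ))) le_rfl le_rfl
  have h3 : c * c' * (X / Real.log X ^ E.card * sing y E) = c * (X * (c' * (1 / Real.log X ^ E.card * sing y E))) := by ring
  rw [h3]
  refine le_trans (mul_le_mul_of_nonneg_left (mul_le_mul_of_nonneg_left h1 (by linarith)) hc.le) (h2.trans ?_)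
  have hfin : (Good t ν X d E e₁ e₂).Finite := by
    apply Set.Finite.subset (Set.finite_Iic ⌊2 * X⌋₊)
    rintro n ⟨-, h2, -⟩
    exact Nat.le_floor h2
  rw [← Set.ncard_coe_finset, Nat.cast_le]
  apply Set.ncard_le_ncard _ hfin
  intro n hn
  unfold Pool.Agent.Q117.LF.PtsH at hn
  simp only [Finset.coe_filter, Set.mem_setOf_eq] at hn
  obtain ⟨-, g1, g2, g3, g4, g5, g6, g7⟩ := hn
  rw [Nat.cast_one, div_one] at g2
  refine ⟨g1, by linarith, ?_, ⟨g5.1, ?_⟩, g6, fun m hm hmX r1 r2 => ?_⟩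
  · have e : ((n : ℤ) + e₁).toNat = ((n : ℤ) + e₁).natAbs := by omega
    rw [e]; exact g4
  · intro p hp hpd
    refine lt_of_le_of_lt ?_ (g5.2 p hp hpd)
    exact Real.rpow_le_rpow_of_exponent_le hX2 (by norm_num)
  · have hR : ∀ x : ℤ, Rough (X ^ (1 / (t : ℝ))) x → Pool.Agent.Q117.LF.Ro (X ^ (1 / (t : ℝ))) x := fun x hx => hx
    have h0 := g7 0 (m - n) (le_min hm hmX) (by
      intro f hf
      simp only [Finset.mem_insert, Finset.mem_singleton] at hf
      apply hR
      rcases hf with rfl | rfl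
      · have : (n : ℤ) + (m - n) + 0 = m := by ring
        rw [this]; exact r1
      · have : (n : ℤ) + (m - n) + d = m + d := by ring
        rw [this]; exact r2)
    have u0 := h0 0 (by simp)
    have u1 := h0 d (by simp)
    rw [add_zero] at u0
    exact ⟨u0, u1⟩

end Pool.Agent.Results.MP_678834_nt.IsolatedPairsAllDifferences
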