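import Pool.Agent.Q138.PS.UM
import Pool.Agent.Q138.PS.UL

/-!
# Uniform asymptotics for prime pairs (and `s`-tuples): all differences in windows around `α (x 2 - x 1) P(k)`

Let `q ≥ 2` and let `x = (x 1, ..., x s)` be a typical point of a product of measures on the line each of which is self-similar
(and not a point mass) or has a Fourier transform in some `L^p`; for instance almost every point of `[0, 1] ^ s`. Outside a set of
real numbers of Hausdorff dimension at most `q / (q + 1 / (q 2 ^ (q - 1)))` (that is `8 / 9` for `q = 2`) every `α > 0` has the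
following property: for ALL integral polynomials `P` of degree `q` with positive leading coefficient and coefficients of size at
most `N ^ η`, for all but `N / (log N) ^ U` of the `k ≤ N`, the following holds with `t = α P(k)`, for all admissible sets of
shifts `a i` near `t x i`, `i ≤ s`: there is an `n ≤ t / Q` with all `n + a i` prime, and the number of the `n ≤ y` with this
property, for `t / Q ≤ y ≤ Q t`, is given by the formula of Hardy and Littlewood. For `s = 2` these are the pairs of primes with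
difference `d = |a 1 - a 2|`: the asymptotics hold uniformly for all even `d` in windows of length `2 (log t) ^ A`.

Definitions used: `Pool.Agent.Q259.AS.SelfSim μ`: `μ` is a self-similar measure `μ = ∑ p i * (f i)_* μ` of finitely many maps
`f i x = ρ i * x + t i` with `0 < |ρ i| < 1` and `p i > 0`, not all with the same fixed point; `FourLp μ`: the Fourier transform
of `μ` belongs to `L^q` for some `q < ∞`.
-/

set_option autoImplicit false

namespace Pool.Agent.Results.MP_678834_nt.PolynomialShifts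

open Filter Topology MeasureTheory
open Pool.Agent.Q138.PS
open Pool.Agent.Q259.AS (SelfSim FourLp)

/-- The set of shifts is admissible: for every prime `p` some residue class modulo `p` contains none of the `-a i`. -/
def Admissible {s : ℕ} (a : Fin s → ℕ) : Prop :=
  ∀ p : ℕ, p.Prime → ∃ n : ℕ, ∀ i, ¬ p ∣ n + a i

/-- The number of the residues `r` modulo `p` for which `p` divides one of the `r + a i`. -/
def nu {s : ℕ} (a : Fin s → ℕ) (p : ℕ) : ℕ :=
  ((Finset.range p).filter (fun r : ℕ => ∃ i, p ∣ r + a i)).card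

/-- The partial products `∏_{p ≤ z} (1 - ν(p) / p) / (1 - 1 / p) ^ s` of the singular series. -/
noncomputable def sing {s : ℕ} (a : Fin s → ℕ) (z : ℕ) : ℝ :=
  ∏ p ∈ (Finset.Icc 1 z).filter Nat.Prime, (1 - (nu a p : ℝ) / p) / (1 - 1 / (p : ℝ)) ^ s

/-- The number of the positive integers `n ≤ y` for which all `n + a i` are primes. -/
def primeShifts {s : ℕ} (a : Fin s → ℕ) (y : ℕ) : ℕ :=
  ((Finset.Icc 1 y).filter (fun n : ℕ => ∀ i, (n + a i).Prime)).card

/-- For all shifts `a i` with `|a i - t * x i| ≤ log t ^ A` which are admissible: the partial products of the singular series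
converge to some `G > 0`, for all `y ≥ t / Q` some positive integer `n ≤ y` makes all `n + a i` prime, and if moreover
`y ≤ Q t` then the number of these `n` is `G * y / log ^ s y` up to a relative error of `ε`. -/
def Good {s : ℕ} (ε : ℝ) (A Q : ℕ) (x : Fin s → ℝ) (t : ℝ) : Prop :=
  ∀ a : Fin s → ℕ, (∀ i, |(a i : ℝ) - t * x i| ≤ Real.log t ^ A) → Admissible a →
    ∃ G : ℝ, 0 < G ∧ Tendsto (sing a) atTop (𝓝 G) ∧ ∀ y : ℕ, t ≤ Q * y →
      (∃ n : ℕ, 1 ≤ n ∧ n ≤ y ∧ ∀ i, (n + a i).Prime) ∧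
      ((y : ℝ) ≤ Q * t → |(primeShifts a y : ℝ) - G * (y / Real.log y ^ s)| ≤ ε * (G * (y / Real.log y ^ s)))

open Classical in
/-- the number of the `1 ≤ k ≤ N` for which `α P(k)` is not `Good` -/
noncomputable def exceptions {s : ℕ} (ε : ℝ) (A Q : ℕ) (x : Fin s → ℝ) (α : ℝ) (P : Polynomial ℤ) (N : ℕ) : ℕ :=
  ((Finset.Icc 1 N).filter fun k : ℕ => ¬ Good ε A Q x (α * ((P.eval (k : ℤ) : ℤ) : ℝ))).card

theorem nu_eq {s : ℕ} (a : Fin s → ℕ) (p : ℕ) : Forms.nu (fun _ => 1) (fun i => (a i : ℤ)) p = nu a p := by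
  unfold Forms.nu nu
  congr 1
  ext r
  rw [Finset.mem_filter, Finset.mem_filter]
  refine and_congr Iff.rfl (exists_congr fun i => ?_)
  rw [one_mul, ← Int.natCast_dvd_natCast (m := p)]
  push_cast
  rfl

theorem sing_eq {s : ℕ} (a : Fin s → ℕ) : Forms.sing (fun _ => 1) (fun i => (a i : ℤ)) = sing a := by
  funext z
  unfold Forms.sing sing
  simp only [nu_eq]

theorem count_eq {s : ℕ} (a : Fin s → ℕ) (y : ℕ) :
    Forms.primeValues (fun _ => 1) (fun i => (a i : ℤ)) 0 y = primeShifts a y := by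
  unfold Forms.primeValues primeShifts
  symm
  refine Finset.card_bij (fun n _ => (n : ℤ)) ?_ ?_ ?_
  · intro n hn
    rw [Finset.mem_filter, Finset.mem_Icc] at hn
    rw [Finset.mem_filter, Finset.mem_Ioc]
    refine ⟨⟨by omega, by omega⟩, fun i => ?_⟩
    have : (1 * (n : ℤ) + (a i : ℤ)).toNat = n + a i := by omega
    rw [this]
    exact hn.2 i
  · intro n _ m _ h
    exact_mod_cast h
  · intro m hm
    rw [Finset.mem_filter, Finset.mem_Ioc] at hm
    refine ⟨m.toNat, ?_, Int.toNat_of_nonneg hm.1.1.le⟩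
    rw [Finset.mem_filter, Finset.mem_Icc]
    refine ⟨⟨by omega, by omega⟩, fun i => ?_⟩
    have : (1 * m + (a i : ℤ)).toNat = m.toNat + a i := by omega
    rw [← this]
    exact hm.2 i

theorem good_of {s : ℕ} {ε : ℝ} (hε1 : ε ≤ 1 / 2) {A Q : ℕ} {x : Fin s → ℝ} {t : ℝ} (ht : (2 * Q + 2 : ℝ) ^ 2 ≤ t)
    (h : Forms.Good ε A (2 * Q + 2) x t) : Good ε A Q x t := by
  intro a ha hadm
  have hQ0 : (0 : ℝ) ≤ Q := Nat.cast_nonneg _
  have ht0 : (4 : ℝ) ≤ t := by nlinarith
  have hadm' : Forms.Admissible (fun _ : Fin s => (1 : ℤ)) (fun i => (a i : ℤ)) := by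
    intro p hp
    obtain ⟨n, hn⟩ := hadm p hp
    refine ⟨n, fun i hi => hn i ?_⟩
    rw [one_mul] at hi
    rw [← Int.natCast_dvd_natCast (m := p)]
    push_cast
    exact hi
  have key : ∀ y : ℕ, (y : ℝ) ≤ (2 * Q + 2) * t → t ≤ (2 * Q + 2) * y → ∃ G : ℝ, 0 < G ∧ Tendsto (sing a) atTop (𝓝 G) ∧
      |(primeShifts a y : ℝ) - G * (y / Real.log y ^ s)| ≤ ε * (G * (y / Real.log y ^ s)) := by
    intro y hy1 hy2
    obtain ⟨G, hG0, hG1, hG2⟩ := h (fun i => (a i : ℤ)) (fun i => by exact_mod_cast ha i) (fun _ => 1)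
      (fun i => ⟨one_ne_zero, by
        rw [abs_one]
        exact_mod_cast (by omega : 1 ≤ 2 * Q + 2)⟩) hadm' 0 y (by
        rw [Int.cast_zero, abs_zero]
        positivity) (by
        push_cast
        exact hy1) (by
        push_cast
        exact hy2) (fun n hn1 hn2 i => by
        have : (0 : ℤ) ≤ (a i : ℤ) := Int.natCast_nonneg _
        omega)
    rw [sing_eq] at hG1
    rw [count_eq] at hG2
    exact ⟨G, hG0, hG1, hG2⟩
  -- a fixed `y` for the limit and for the existence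
  have hyQ : t / (2 * Q + 2) ≤ (⌈t / (2 * (Q : ℝ) + 2)⌉₊ : ℝ) := Nat.le_ceil _
  set y₀ : ℕ := ⌈t / (2 * (Q : ℝ) + 2)⌉₊ with hy₀
  have hy1 : (y₀ : ℝ) < t / (2 * Q + 2) + 1 := Nat.ceil_lt_add_one (by positivity)
  have hy2 : t ≤ (2 * Q + 2) * y₀ := by
    rw [div_le_iff₀ (by positivity)] at hyQ
    linarith
  have hy3 : t / (2 * Q + 2) ≤ t / 2 := by
    refine div_le_div_of_nonneg_left (by linarith) (by norm_num) (by linarith)
  have hy4 : (y₀ : ℝ) ≤ (2 * Q + 2) * t := by nlinarith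
  obtain ⟨G, hG0, hG1, hG2⟩ := key y₀ hy4 hy2
  have hy5 : (2 : ℝ) ≤ y₀ := by
    have : (2 * Q + 2 : ℝ) ≤ t / (2 * Q + 2) := by
      rw [le_div_iff₀ (by positivity)]
      nlinarith
    linarith
  have hlog : 0 < Real.log (y₀ : ℝ) := Real.log_pos (by linarith)
  have hex : ∃ n : ℕ, 1 ≤ n ∧ n ≤ y₀ ∧ ∀ i, (n + a i).Prime := by
    have h1 : 0 < G * ((y₀ : ℝ) / Real.log y₀ ^ s) := by positivity
    have h2 := (abs_le.1 hG2).1
    have h3 : (0 : ℝ) < primeShifts a y₀ := by nlinarith
    have h4 : 0 < primeShifts a y₀ := by exact_mod_cast h3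
    unfold primeShifts at h4
    rw [Finset.card_pos] at h4
    obtain ⟨n, hn⟩ := h4
    rw [Finset.mem_filter, Finset.mem_Icc] at hn
    exact ⟨n, hn.1.1, hn.1.2, hn.2⟩
  refine ⟨G, hG0, hG1, fun y hy => ⟨?_, fun hyt => ?_⟩⟩
  · obtain ⟨n, hn1, hn2, hn3⟩ := hex
    refine ⟨n, hn1, hn2.trans ?_, hn3⟩
    -- `y₀ ≤ y`
    have hQ1 : (1 : ℝ) ≤ Q := by
      have : Q ≠ 0 := by
        rintro rfl
        rw [Nat.cast_zero, zero_mul] at hy
        linarith
      exact_mod_cast Nat.one_le_iff_ne_zero.2 this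
    rw [hy₀]
    refine Nat.ceil_le.2 ?_
    rw [div_le_iff₀ (by positivity)]
    have : (0 : ℝ) ≤ y := Nat.cast_nonneg _
    nlinarith
  · obtain ⟨G', hG'0, hG'1, hG'2⟩ := key y (by nlinarith) (by
      have : (0 : ℝ) ≤ y := Nat.cast_nonneg _
      nlinarith)
    have : G' = G := tendsto_nhds_unique hG'1 hG1
    rw [← this]
    exact hG'2

/-- **Theorem.** Let `μ 1, ..., μ s` be probability measures on the line each of which is self-similar and not a point mass, or has
a Fourier transform in some `L^p`, `p < ∞`, and let `q ≥ 2`. For almost every `x = (x 1, ..., x s)`, with respect to the product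
of the measures, there is a set `E` of Hausdorff dimension at most `q / (q + 1 / (q 2 ^ (q - 1)))` such that for all `α > 0`
outside `E`, all `0 < ε ≤ 1 / 2` and all `A, Q, U` there is `η > 0` such that for all large `N` and ALL `P ∈ ℤ[X]` of degree
`q` with positive leading coefficient and coefficients of size at most `N ^ η`: for all but at most `N / (log N) ^ U` of the
`k ≤ N` the number `α P(k)` is `Good`. -/
theorem result (s : ℕ) (hs : 1 ≤ s) (μ : Fin s → Measure ℝ) [∀ i, IsProbabilityMeasure (μ i)]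
    (hμ : ∀ i, SelfSim (μ i) ∨ FourLp (μ i)) (q : ℕ) (hq : 2 ≤ q) :
    ∀ᵐ x ∂(Measure.pi μ), ∃ E : Set ℝ, dimH E ≤ ENNReal.ofReal (q / (q + 1 / ((q : ℝ) * 2 ^ (q - 1)))) ∧
      ∀ α : ℝ, 0 < α → α ∉ E → ∀ ε : ℝ, 0 < ε → ε ≤ 1 / 2 → ∀ A Q U : ℕ, ∃ η : ℝ, 0 < η ∧ ∀ᶠ N : ℕ in atTop,
        ∀ P : Polynomial ℤ, P.natDegree = q → 0 < P.leadingCoeff → (∀ j, |((P.coeff j : ℤ) : ℝ)| ≤ (N : ℝ) ^ η) →
          (exceptions ε A Q x α P N : ℝ) ≤ N / Real.log N ^ U := by
  classical
  filter_upwards [Forms.forms_main s hs μ hμ q hq] with x hx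
  obtain ⟨E, hE, h⟩ := hx
  -- the small values of `α P(k)`
  obtain ⟨E', hE', h'⟩ := exc_real (ι := ℕ) q hq (fun i m => m < i) (fun i t => (i : ℝ) ≤ t)
    (fun i U => ⟨i * U.factorial, by positivity, fun Y hY => by
      refine le_trans ?_ (small_part i U Y hY)
      rw [cn_ncard]
      have h1 : {n : ℕ | 1 ≤ n ∧ n ≤ Y ∧ n < i}.ncard ≤ (Set.Iio i).ncard :=
        Set.ncard_le_ncard (fun n hn => hn.2.2) (Set.finite_Iio _)
      rw [← Finset.coe_range, Set.ncard_coe_finset, Finset.card_range] at h1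
      exact_mod_cast h1⟩)
    (fun i => ⟨0, fun t ht0 _ ht => by
      push Not at ht
      exact le_trans (by exact_mod_cast ht) (Nat.floor_le ht0)⟩)
  refine ⟨E ∪ E', ?_, fun α hα hαE ε hε hε1 A Q U => ?_⟩
  · rw [dimH_union]
    exact max_le hE hE'
  obtain ⟨η, hη, h1⟩ := h α hα (fun h => hαE (Or.inl h)) ε hε A (2 * Q + 2) (U + 1)
  obtain ⟨η', hη', h2⟩ := h' α hα (fun h => hαE (Or.inr h)) ((2 * Q + 2) ^ 2) (U + 1)
  refine ⟨min η η', by positivity, ?_⟩
  have hlog := (Real.tendsto_log_atTop.comp (tendsto_natCast_atTop_atTop (R := ℝ))).eventually_ge_atTop 2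
  filter_upwards [h1, h2, hlog, eventually_ge_atTop 1] with N g1 g2 g3 hN1
  intro P hdeg hlead hco
  simp only [Function.comp] at g3
  have hN1r : (1 : ℝ) ≤ N := by exact_mod_cast hN1
  have k1 := g1 P hdeg hlead (fun j => (hco j).trans (Real.rpow_le_rpow_of_exponent_le hN1r (min_le_left _ _)))
  have k2 := g2 P hdeg hlead (fun j => (hco j).trans (Real.rpow_le_rpow_of_exponent_le hN1r (min_le_right _ _)))
  have hsum : (exceptions ε A Q x α P N : ℝ) ≤ (Forms.exceptions ε A (2 * Q + 2) x α P N : ℝ) +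
      (excCount (fun t => (((2 * Q + 2) ^ 2 : ℕ) : ℝ) ≤ t) α P N : ℝ) := by
    rw [← Nat.cast_add]
    refine Nat.cast_le.2 (le_trans (Finset.card_le_card (t := (((Finset.Icc 1 N).filter fun k : ℕ =>
      ¬ Forms.Good ε A (2 * Q + 2) x (α * ((P.eval (k : ℤ) : ℤ) : ℝ))) ∪ ((Finset.Icc 1 N).filter fun k : ℕ =>
      ¬ (((2 * Q + 2) ^ 2 : ℕ) : ℝ) ≤ (α * ((P.eval (k : ℤ) : ℤ) : ℝ))))) fun k hk => ?_) (Finset.card_union_le _ _))
    rw [Finset.mem_filter] at hk
    rw [Finset.mem_union, Finset.mem_filter, Finset.mem_filter]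
    by_contra hcon
    push Not at hcon
    refine hk.2 (good_of hε1 ?_ (hcon.1 hk.1))
    have := hcon.2 hk.1
    push_cast at this
    exact this
  refine hsum.trans ((add_le_add k1 k2).trans ?_)
  have hlog0 : (0 : ℝ) < Real.log N := by linarith
  have hN0 : (0 : ℝ) < N := by linarith
  rw [← two_mul, pow_succ, ← mul_div_assoc, div_le_div_iff₀ (by positivity) (by positivity)]
  calc 2 * (N : ℝ) * Real.log N ^ U = N * (Real.log N ^ U * 2) := by ring
    _ ≤ N * (Real.log N ^ U * Real.log N) := by gcongr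

end Pool.Agent.Results.MP_678834_nt.PolynomialShifts
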