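import Pool.Agent.Q253.Thin.ListU
import Pool.Agent.Q253.Thin.VD

/-!
# Prime pairs for all differences `d ≤ log ^ E x` at once, up to one prime factor from one extremely thin set

The problem asks for the number of the primes `p ≤ x` with `p - d` prime, uniformly for the even `d ≤ (log x) ^ 2`.

(1) For all large `x`, EVERY even `d` and every window there are as many such primes as expected (up to a constant factor), or the primes
`q` for which there are as many `p` with `(p - d) / q` prime as expected have harmonic measure at least `ρ`.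

(2) For every `E` there is ONE set `Q` of primes with `O((log log x) ^ 2)` elements up to `x` which serves all even `d ≤ log ^ E x` and all
windows: the second alternative is `(p - d) / q` prime for one `q ∈ Q`, with the expected frequency.

Libraries: `Y840.CT.GenF` (Chen's theorem in windows, starting files), `Y151.HS.FLC` (fundamental lemma, starting files).
-/

set_option autoImplicit false

namespace Pool.Agent.Results.MP_678834_nt.ThinFactorsAllDifferences

open Finset Filter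
open Pool.Agent.Y840.CT Pool.Agent.Q253.Thin
open Pool.Agent.Q253.Cov (sg sg_pos)

/-- the product of the `(p - 1) / (p - 2)` over the odd primes `p` dividing `d` -/
noncomputable def sing (d : ℕ) : ℝ := ∏ p ∈ d.primeFactors.erase 2, (((p : ℝ) - 1) / ((p : ℝ) - 2))

/-- the number of the primes `A < p ≤ B` for which `p - d` is prime -/
def pairs (d A B : ℕ) : ℕ := ((Ioc A B).filter (fun p => p.Prime ∧ (p - d).Prime)).card

open Classical in
/-- the number of the primes `A < p ≤ B` for which `p - d` is `q` times a prime `≥ q` -/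
noncomputable def pairsUpTo (q d A B : ℕ) : ℕ :=
  ((Ioc A B).filter (fun p => p.Prime ∧ ∃ p' : ℕ, p'.Prime ∧ q ≤ p' ∧ p = d + q * p')).card

lemma sys0 {d : ℕ} (hd : Even d) (hd1 : 1 ≤ d) : Sys0 1 (fun _ => {(d : ℤ)}) d where
  card q _ := by simp
  ne := by exact_mod_cast (by omega : d ≠ 0)
  mem q _ := by simp
  loc q hq := by
    rw [rho_single]
    split_ifs with h
    · exact hq.one_lt
    · rcases hq.two_le.eq_or_lt with h2 | h2
      · exfalso
        apply h
        rw [← h2]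
        exact_mod_cast hd.two_dvd
      · exact h2

/-- the translation of the first alternative -/
lemma convP {t X A B d : ℕ} (hd : ∀ p : ℕ, (X : ℝ) ^ (1 / (t : ℝ)) < (p : ℝ) → A < p → d < p) :
    (PF t X A B (fun _ => {(d : ℤ)}) d).card ≤ pairs d A B := by
  classical
  unfold pairs
  apply card_le_card
  intro p hp
  unfold PF GoodF at hp
  rw [mem_filter, mem_filter] at hp
  obtain ⟨⟨p0, pp, pt, pr, pF⟩, ph⟩ := hp
  rw [mem_filter]
  refine ⟨p0, pp, ?_⟩
  have h1 := hd p pt (mem_Ioc.1 p0).1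
  have h2 : ((d : ℤ) - p).natAbs = p - d := by omega
  rwa [h2] at ph

/-- the translation of the second alternative -/
lemma convR {t X A B d q : ℕ} (hd : ∀ p : ℕ, (X : ℝ) ^ (1 / (t : ℝ)) < (p : ℝ) → A < p → d < p) :
    (RF t X A B (fun _ => {(d : ℤ)}) d q).card ≤ pairsUpTo q d A B := by
  classical
  unfold pairsUpTo
  apply card_le_card
  intro p hp
  unfold RF GoodF at hp
  rw [mem_filter, mem_filter] at hp
  obtain ⟨⟨p0, pp, pt, pr, pF⟩, q', hq', hqq', hpq⟩ := hp
  rw [mem_filter]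
  refine ⟨p0, pp, q', hq', hqq', ?_⟩
  have h1 := hd p pt (mem_Ioc.1 p0).1
  have h2 : ((d : ℤ) - p).natAbs = p - d := by omega
  rw [h2] at hpq
  omega

lemma size {t X A B d q : ℕ} (hq : q.Prime) (hBX : B ≤ X)
    (hd : ∀ p : ℕ, (X : ℝ) ^ (1 / (t : ℝ)) < (p : ℝ) → A < p → d < p)
    (hne : 0 < (RF t X A B (fun _ => {(d : ℤ)}) d q).card) : (X : ℝ) ^ (1 / 9 : ℝ) < q ∧ q ^ 2 ≤ X := by
  classical
  obtain ⟨p, hp⟩ := card_pos.1 hne
  unfold RF GoodF at hp
  rw [mem_filter, mem_filter] at hp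
  obtain ⟨⟨p0, pp, pt, ⟨pr1, pr2, pr3⟩, pF⟩, q', hq', hqq', hpq⟩ := hp
  have h1 := hd p pt (mem_Ioc.1 p0).1
  have h2 : ((d : ℤ) - p).natAbs = p - d := by omega
  rw [mem_Ioc] at p0
  constructor
  · apply pr3 q hq
    rw [Int.natCast_dvd, hpq]
    exact Dvd.intro _ rfl
  · rw [h2] at hpq
    calc q ^ 2 ≤ q * q' := by
          rw [pow_two]
          exact Nat.mul_le_mul_left _ hqq'
      _ = p - d := hpq.symm
      _ ≤ X := by omega

/-- **All differences at once.** There are `c, ρ > 0` such that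

(1) for every `θ > 0`, all large `X`, EVERY even `d ≥ 1` and all windows with `d ≤ A`, `B ≤ X`, `B - A ≥ θ X`, with
`N = sing d (B - A) / log ^ 2 X`: at least `c N` primes `A < p ≤ B` have `p - d` prime, or there is a finite set `T` of primes `q` with
`X ^ (1/9) < q ≤ X ^ (1/2)` and `∑ 1/q ≥ ρ` such that for each of them at least `c N / q` primes `A < p ≤ B` have `(p - d) / q` prime;

(2) for every `E` there are `c', C > 0` and a set `Q` of primes with at most `C (log log x) ^ 2` elements up to `x` (`x ≥ 16`) such that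
for every `θ > 0`, all large `X`, all even `1 ≤ d ≤ log ^ E X` and all windows with `B ≤ X`, `B - A ≥ θ X`: at least `c' N` primes
`A < p ≤ B` have `p - d` prime, or there is `q ∈ Q`, `X ^ (1/9) < q ≤ X ^ (1/2)`, such that for at least `c' N / q` primes `A < p ≤ B` the
number `p - d` is `q` times a prime `≥ q`. -/
theorem result : ∃ c ρ : ℝ, 0 < c ∧ 0 < ρ ∧
    (∀ θ : ℝ, 0 < θ → ∃ X₀ : ℕ, ∀ X : ℕ, X₀ ≤ X → ∀ d A B : ℕ, Even d → 1 ≤ d → d ≤ A → B ≤ X → θ * X ≤ (B : ℝ) - A →
      c * (sing d * ((B : ℝ) - A) / Real.log X ^ 2) ≤ pairs d A B ∨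
      ∃ T : Finset ℕ, (∀ q ∈ T, q.Prime ∧ (X : ℝ) ^ (1 / 9 : ℝ) < q ∧ q ^ 2 ≤ X ∧
        c * (sing d * ((B : ℝ) - A) / Real.log X ^ 2) / q ≤ pairsUpTo q d A B) ∧ ρ ≤ ∑ q ∈ T, (1 : ℝ) / q) ∧
    (∀ E : ℕ, ∃ c' C : ℝ, 0 < c' ∧ 0 < C ∧ ∃ Q : Set ℕ, (∀ q ∈ Q, q.Prime) ∧
      (∀ x : ℕ, 16 ≤ x → {q ∈ Q | q ≤ x}.Finite ∧ ({q ∈ Q | q ≤ x}.ncard : ℝ) ≤ C * Real.log (Real.log x) ^ 2) ∧
      ∀ θ : ℝ, 0 < θ → ∃ X₀ : ℕ, ∀ X : ℕ, X₀ ≤ X → ∀ d A B : ℕ, Even d → 1 ≤ d → (d : ℝ) ≤ Real.log X ^ E →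
        B ≤ X → θ * X ≤ (B : ℝ) - A →
        c' * (sing d * ((B : ℝ) - A) / Real.log X ^ 2) ≤ pairs d A B ∨
        ∃ q ∈ Q, (X : ℝ) ^ (1 / 9 : ℝ) < q ∧ q ^ 2 ≤ X ∧
          c' * (sing d * ((B : ℝ) - A) / Real.log X ^ 2) / q ≤ pairsUpTo q d A B) := by
  classical
  obtain ⟨t, ht, c, hc, ρ, hρ, hdich⟩ := dich 1
  obtain ⟨cV, hcV, hV⟩ := VFd_low
  have hsing : ∀ d, sing d = sg d := fun d => rfl
  have hpos : ∀ (X d A B : ℕ) (θ : ℝ), 0 < θ → 2 ≤ X → θ * X ≤ (B : ℝ) - A → 0 < sing d * ((B : ℝ) - A) / Real.log X ^ 2 := by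
    intro X d A B θ hθ hX hAB
    have hX0 : (0 : ℝ) < X := by exact_mod_cast (by omega : 0 < X)
    have h1 : 0 < (B : ℝ) - A := lt_of_lt_of_le (by positivity) hAB
    have h2 : 0 < Real.log X := Real.log_pos (by exact_mod_cast (by omega : 1 < X))
    rw [hsing]
    exact div_pos (mul_pos (sg_pos d) h1) (by positivity)
  have hcmp : ∀ (X d A B : ℕ), 2 ≤ X → Even d → 1 ≤ d → d ≤ X → A ≤ B →
      cV * (sing d * ((B : ℝ) - A) / Real.log X ^ 2) ≤ ((B : ℝ) - A) * VF (fun _ => {(d : ℤ)}) X := by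
    intro X d A B hX hd hd1 hdX hAB
    have h1 := hV X d hX hd hd1 hdX
    have h2 : (0 : ℝ) ≤ (B : ℝ) - A := by
      have : (A : ℝ) ≤ B := by exact_mod_cast hAB
      linarith
    rw [hsing]
    calc cV * (sg d * ((B : ℝ) - A) / Real.log X ^ 2) = ((B : ℝ) - A) * (cV * (sg d / Real.log X ^ 2)) := by ring
      _ ≤ _ := mul_le_mul_of_nonneg_left h1 h2
  refine ⟨c * cV, ρ, by positivity, hρ, ?_, ?_⟩
  · intro θ hθ
    obtain ⟨X₀, H⟩ := hdich θ hθ
    refine ⟨max X₀ 2, ?_⟩
    intro X hX d A B hd hd1 hdA hBX hAB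
    have hX2 : 2 ≤ X := (le_max_right _ _).trans hX
    have hN := hpos X d A B θ hθ hX2 hAB
    have hABn : A ≤ B := by
      have hX0 : (0 : ℝ) < X := by exact_mod_cast (by omega : 0 < X)
      have h1 : (A : ℝ) < B := by
        have : 0 < (B : ℝ) - A := lt_of_lt_of_le (by positivity) hAB
        linarith
      exact_mod_cast h1.le
    have hdX : d ≤ X := by omega
    have hdp : ∀ p : ℕ, (X : ℝ) ^ (1 / (t : ℝ)) < (p : ℝ) → A < p → d < p := fun p _ h => by omega
    have hsys : SysF 1 X (fun _ => {(d : ℤ)}) d := (sys0 hd hd1).sys (by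
      rw [abs_of_nonneg (by positivity)]
      exact_mod_cast hdX)
    have hc1 := hcmp X d A B hX2 hd hd1 hdX hABn
    rcases H X ((le_max_left _ _).trans hX) _ _ hsys A B hBX hAB with h | h
    · left
      calc c * cV * (sing d * ((B : ℝ) - A) / Real.log X ^ 2) = c * (cV * (sing d * ((B : ℝ) - A) / Real.log X ^ 2)) := by ring
        _ ≤ c * (((B : ℝ) - A) * VF (fun _ => {(d : ℤ)}) X) := mul_le_mul_of_nonneg_left hc1 hc.le
        _ ≤ _ := h
        _ ≤ _ := by exact_mod_cast convP hdp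
    · right
      refine ⟨Gd c t X A B (fun _ => {(d : ℤ)}) d, ?_, h⟩
      intro q hq
      unfold Gd at hq
      rw [mem_filter] at hq
      obtain ⟨_, ⟨q1, q2⟩, q3, q4⟩ := hq
      have hq0 : (0 : ℝ) < q := by exact_mod_cast q1.pos
      have h1 : c * cV * (sing d * ((B : ℝ) - A) / Real.log X ^ 2) / q ≤ ((RF t X A B (fun _ => {(d : ℤ)}) d q).card : ℝ) := by
        refine le_trans ?_ q4
        calc c * cV * (sing d * ((B : ℝ) - A) / Real.log X ^ 2) / q = c * (cV * (sing d * ((B : ℝ) - A) / Real.log X ^ 2) / q) := by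
              ring
          _ ≤ c * (((B : ℝ) - A) * VF (fun _ => {(d : ℤ)}) X / q) :=
              mul_le_mul_of_nonneg_left (div_le_div_of_nonneg_right hc1 hq0.le) hc.le
      have h2 : 0 < ((RF t X A B (fun _ => {(d : ℤ)}) d q).card : ℝ) := lt_of_lt_of_le (by positivity) h1
      obtain ⟨h3, h4⟩ := size q1 hBX hdp (by exact_mod_cast h2)
      exact ⟨q1, h3, h4, h1.trans (by exact_mod_cast convR hdp)⟩
  · intro E
    obtain ⟨c', hc', C, hC, Q, hQ, hQc, H⟩ := thinListU (r := 1) (t := t) hc hρ hdich (fun n => (fun _ => {((2 * n : ℕ) : ℤ)}, ((2 * n : ℕ) : ℤ))) E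
    refine ⟨c' * cV, C, by positivity, hC, Q, hQ, ?_, ?_⟩
    · intro x hx
      obtain ⟨S, hS, hSc⟩ := hQc x hx
      have hsub : {q ∈ Q | q ≤ x} ⊆ (S : Set ℕ) := by
        rintro q ⟨h1, h2⟩
        exact hS q h1 h2
      refine ⟨(finite_toSet _).subset hsub, ?_⟩
      have h1 := Set.ncard_le_ncard hsub (finite_toSet _)
      rw [Set.ncard_coe_finset] at h1
      exact le_trans (by exact_mod_cast h1) hSc
    · intro θ hθ
      obtain ⟨X₀, H⟩ := H θ hθ
      have ht0 : (0 : ℝ) < 1 / (t : ℝ) := by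
        have : (0 : ℝ) < t := by exact_mod_cast ht
        positivity
      have ev : ∀ᶠ X : ℕ in atTop, Real.log X ^ E ≤ (X : ℝ) ^ (1 / (t : ℝ)) := by
        have h1 := (isLittleO_log_rpow_rpow_atTop (E : ℝ) ht0).def (one_pos (α := ℝ))
        have h2 := (tendsto_natCast_atTop_atTop (R := ℝ)).eventually h1
        filter_upwards [h2, eventually_ge_atTop 1] with X hX h1
        have hX1 : (1 : ℝ) ≤ X := by exact_mod_cast h1
        rw [Real.norm_of_nonneg (Real.rpow_nonneg (Real.log_nonneg hX1) _), Real.norm_of_nonneg (by positivity), one_mul,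
          Real.rpow_natCast] at hX
        exact hX
      obtain ⟨X₁, hX₁⟩ := eventually_atTop.1 ev
      refine ⟨max (max X₀ X₁) 2, ?_⟩
      intro X hX d A B hd hd1 hdE hBX hAB
      have x0 : X₀ ≤ X := ((le_max_left _ _).trans (le_max_left _ _)).trans hX
      have x1 := hX₁ X (((le_max_right _ _).trans (le_max_left _ _)).trans hX)
      have hX2 : 2 ≤ X := (le_max_right _ _).trans hX
      have hX1r : (1 : ℝ) ≤ X := by exact_mod_cast (by omega : 1 ≤ X)
      have hN := hpos X d A B θ hθ hX2 hAB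
      have hABn : A ≤ B := by
        have hX0 : (0 : ℝ) < X := by exact_mod_cast (by omega : 0 < X)
        have h1 : (A : ℝ) < B := by
          have : 0 < (B : ℝ) - A := lt_of_lt_of_le (by positivity) hAB
          linarith
        exact_mod_cast h1.le
      have hdX : d ≤ X := by
        have h1 : (X : ℝ) ^ (1 / (t : ℝ)) ≤ X := by
          calc (X : ℝ) ^ (1 / (t : ℝ)) ≤ (X : ℝ) ^ (1 : ℝ) := by
                apply Real.rpow_le_rpow_of_exponent_le hX1r
                rw [div_le_one (by exact_mod_cast ht)]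
                exact_mod_cast ht
            _ = X := Real.rpow_one _
        exact_mod_cast hdE.trans (x1.trans h1)
      have hdp : ∀ p : ℕ, (X : ℝ) ^ (1 / (t : ℝ)) < (p : ℝ) → A < p → d < p := by
        intro p hp _
        have : (d : ℝ) < p := lt_of_le_of_lt (hdE.trans x1) hp
        exact_mod_cast this
      obtain ⟨n, hn⟩ := hd.two_dvd
      have hn1 : 1 ≤ n := by omega
      have hnE : (n : ℝ) ≤ Real.log X ^ E := by
        refine le_trans ?_ hdE
        exact_mod_cast (by omega : n ≤ d)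
      have hc1 := hcmp X d A B hX2 hd hd1 hdX hABn
      have h0 := H X x0 n hnE (by
        simp only
        rw [← hn]
        exact sys0 hd hd1) (by
        simp only
        rw [← hn, abs_of_nonneg (by positivity)]
        exact_mod_cast hdX) A B hBX hAB
      simp only at h0
      rw [← hn] at h0
      rcases h0 with h | ⟨q, hq, h⟩
      · left
        calc c' * cV * (sing d * ((B : ℝ) - A) / Real.log X ^ 2) = c' * (cV * (sing d * ((B : ℝ) - A) / Real.log X ^ 2)) := by ring
          _ ≤ c' * (((B : ℝ) - A) * VF (fun _ => {(d : ℤ)}) X) := mul_le_mul_of_nonneg_left hc1 hc'.le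
          _ ≤ _ := h
          _ ≤ _ := by exact_mod_cast convP hdp
      · right
        have hq0 : (0 : ℝ) < q := by exact_mod_cast (hQ q hq).pos
        have h1 : c' * cV * (sing d * ((B : ℝ) - A) / Real.log X ^ 2) / q ≤ ((RF t X A B (fun _ => {(d : ℤ)}) d q).card : ℝ) := by
          refine le_trans ?_ h
          calc c' * cV * (sing d * ((B : ℝ) - A) / Real.log X ^ 2) / q =
                c' * (cV * (sing d * ((B : ℝ) - A) / Real.log X ^ 2) / q) := by ring
            _ ≤ c' * (((B : ℝ) - A) * VF (fun _ => {(d : ℤ)}) X / q) :=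
                mul_le_mul_of_nonneg_left (div_le_div_of_nonneg_right hc1 hq0.le) hc'.le
        have h2 : 0 < ((RF t X A B (fun _ => {(d : ℤ)}) d q).card : ℝ) := lt_of_lt_of_le (by positivity) h1
        obtain ⟨h3, h4⟩ := size (hQ q hq) hBX hdp (by exact_mod_cast h2)
        exact ⟨q, hq, h3, h4, h1.trans (by exact_mod_cast convR hdp)⟩

end Pool.Agent.Results.MP_678834_nt.ThinFactorsAllDifferences
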